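import Pool.Agent.P8H89.UL.DE
import Pool.Agent.P8H17.UL.Vec

/-! Project UL of helper17, packages DE and EH, vector form (helper89). -/

set_option autoImplicit false
set_option linter.unusedVariables false

open WeierstrassCurve

namespace Pool.Agent.P8H89.UL

open Pool.Agent.P8H17.UL

section norm

variable {Ω : Type} [NormedField Ω] {V : WeierstrassCurve Ω} {G : Subgroup (RingAut Ω)}
  {N : Subgroup G} {φ : G} {g : ℕ}

lemma tw_fix (hV : FixW V G) (N : Subgroup G) (hN : N.Normal) (A : Matrix (Fin g) (Fin g) ℤ)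
    (τ : G) {P : Fin g → Pt V} (hP : ∀ i, P i ∈ Fix hV N) (i : Fin g) :
    tw hV A τ P i ∈ Fix hV N := by
  rw [tw_apply]
  exact AddSubgroup.sum_mem _ fun j _ => AddSubgroup.zsmul_mem _ (fix_T hV N hN τ (hP j)) _

lemma bigB_nsmul (hF : FAV V) (na : ∀ x y : Ω, ‖x + y‖ ≤ max ‖x‖ ‖y‖) {B : ℝ} (hB : 1 ≤ B)
    {P : Pt V} (hP : Big B P) (n : ℕ) : Big B (n • P) := by
  induction n with
  | zero =>
    rw [zero_nsmul]
    exact big_zero B
  | succ n ih =>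
    rw [succ_nsmul]
    exact bigB_add hF na hB ih hP

lemma bigB_zsmul (hF : FAV V) (na : ∀ x y : Ω, ‖x + y‖ ≤ max ‖x‖ ‖y‖) {B : ℝ} (hB : 1 ≤ B)
    {P : Pt V} (hP : Big B P) (n : ℤ) : Big B (n • P) := by
  obtain ⟨k, rfl | rfl⟩ := Int.eq_nat_or_neg n
  · rw [natCast_zsmul]
    exact bigB_nsmul hF na hB hP k
  · rw [neg_zsmul, natCast_zsmul]
    exact big_neg (bigB_nsmul hF na hB hP k)

lemma bigB_tw (hF : FAV V) (na : ∀ x y : Ω, ‖x + y‖ ≤ max ‖x‖ ‖y‖) {B : ℝ} (hB : 1 ≤ B)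
    (hV : FixW V G) (A : Matrix (Fin g) (Fin g) ℤ) (τ : G)
    (hiso : ∀ x : Ω, ‖(τ : RingAut Ω) x‖ = ‖x‖) {P : Fin g → Pt V} (hP : ∀ i, Big B (P i))
    (i : Fin g) : Big B (tw hV A τ P i) := by
  rw [tw_apply]
  exact bigB_sum hF na hB _ _ fun j _ => bigB_zsmul hF na hB (big_T hV τ hiso (hP j)) _

lemma tw_step (hV : FixW V G) (A : Matrix (Fin g) (Fin g) ℤ) (φ : G) (i : ℕ) (P : Fin g → Pt V) :
    tw hV A φ (tw hV (A ^ i) (φ ^ i) P) = tw hV (A ^ (i + 1)) (φ ^ (i + 1)) P := by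
  rw [← tw_mul, ← pow_succ', ← pow_succ']

lemma tw_step' (hV : FixW V G) (A : Matrix (Fin g) (Fin g) ℤ) (φ : G) (i : ℕ) (P : Fin g → Pt V) :
    tw hV (A ^ i) (φ ^ i) (tw hV A φ P) = tw hV (A ^ (i + 1)) (φ ^ (i + 1)) P := by
  rw [← tw_mul, ← pow_succ, ← pow_succ]

lemma tw_zero (hV : FixW V G) (A : Matrix (Fin g) (Fin g) ℤ) (φ : G) (P : Fin g → Pt V) :
    tw hV (A ^ 0) (φ ^ 0) P = P := by
  funext i
  rw [pow_zero, pow_zero, tw_one, T_one]

/-- a telescoping sum -/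
lemma norm_boundg (hV : FixW V G) (A : Matrix (Fin g) (Fin g) ℤ) (φ : G) (M : ℕ)
    (P : Fin g → Pt V) :
    ∑ k ∈ Finset.range M, tw hV (A ^ k) (φ ^ k) (tw hV A φ P - P) =
      tw hV (A ^ M) (φ ^ M) P - P := by
  induction M with
  | zero =>
    rw [Finset.sum_range_zero, tw_zero, sub_self]
  | succ M ih =>
    rw [Finset.sum_range_succ, ih, map_sub, tw_step']
    abel

/-- the element with given coboundary -/
lemma cobg (hV : FixW V G) (A : Matrix (Fin g) (Fin g) ℤ) (φ : G) (M : ℕ) (P : Fin g → Pt V) :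
    tw hV A φ (-(∑ i ∈ Finset.range M, ∑ l ∈ Finset.range i, tw hV (A ^ l) (φ ^ l) P)) -
      (-(∑ i ∈ Finset.range M, ∑ l ∈ Finset.range i, tw hV (A ^ l) (φ ^ l) P)) =
      M • P - ∑ i ∈ Finset.range M, tw hV (A ^ i) (φ ^ i) P := by
  have h1 : ∀ i : ℕ, tw hV A φ (∑ l ∈ Finset.range i, tw hV (A ^ l) (φ ^ l) P) -
      ∑ l ∈ Finset.range i, tw hV (A ^ l) (φ ^ l) P = tw hV (A ^ i) (φ ^ i) P - P := by
    intro i
    induction i with
    | zero => rw [Finset.sum_range_zero, map_zero, sub_zero, tw_zero, sub_self]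
    | succ i ih =>
      rw [Finset.sum_range_succ, map_add, tw_step]
      have : tw hV A φ (∑ l ∈ Finset.range i, tw hV (A ^ l) (φ ^ l) P) +
          tw hV (A ^ (i + 1)) (φ ^ (i + 1)) P -
          (∑ l ∈ Finset.range i, tw hV (A ^ l) (φ ^ l) P + tw hV (A ^ i) (φ ^ i) P) =
          (tw hV A φ (∑ l ∈ Finset.range i, tw hV (A ^ l) (φ ^ l) P) -
            ∑ l ∈ Finset.range i, tw hV (A ^ l) (φ ^ l) P) +
            (tw hV (A ^ (i + 1)) (φ ^ (i + 1)) P - tw hV (A ^ i) (φ ^ i) P) := by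
        abel
      rw [this, ih]
      abel
  have h2 : tw hV A φ (∑ i ∈ Finset.range M, ∑ l ∈ Finset.range i, tw hV (A ^ l) (φ ^ l) P) -
      (∑ i ∈ Finset.range M, ∑ l ∈ Finset.range i, tw hV (A ^ l) (φ ^ l) P) =
      ∑ i ∈ Finset.range M, (tw hV (A ^ i) (φ ^ i) P - P) := by
    rw [map_sum, ← Finset.sum_sub_distrib]
    exact Finset.sum_congr rfl fun i _ => h1 i
  rw [map_neg]
  have h3 : -(tw hV A φ (∑ i ∈ Finset.range M, ∑ l ∈ Finset.range i,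
      tw hV (A ^ l) (φ ^ l) P)) -
      (-(∑ i ∈ Finset.range M, ∑ l ∈ Finset.range i, tw hV (A ^ l) (φ ^ l) P)) =
      -(tw hV A φ (∑ i ∈ Finset.range M, ∑ l ∈ Finset.range i, tw hV (A ^ l) (φ ^ l) P) -
      (∑ i ∈ Finset.range M, ∑ l ∈ Finset.range i, tw hV (A ^ l) (φ ^ l) P)) := by abel
  rw [h3, h2, Finset.sum_sub_distrib, Finset.sum_const, Finset.card_range]
  abel

end norm

theorem deg (hFA : S_FA) (hDV : S_DV) : S_DEg := by
  intro Ω _ _ _ G N φ p m Q hS V hV1 hV g A hA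
  have na := hS.na
  have hF : FAV V := hFA Ω na V hV1
  have hM1 : 1 ≤ p ^ m := Nat.one_le_pow _ _ hS.hp.pos
  obtain ⟨hfin, hdiv⟩ := hDV Ω na V hV1.hΔ (p ^ m) hM1
  -- a bound for the torsion
  obtain ⟨B, hB1, hB⟩ : ∃ B : ℝ, 1 ≤ B ∧ ∀ P : Pt V, p ^ m • P = 0 → Big B P → P = 0 := by
    classical
    let xc : Pt V → ℝ := fun P => match P with
      | Affine.Point.zero => 0
      | Affine.Point.some x _ _ => ‖x‖
    have hxc : ∀ (x y : Ω) (h : V.toAffine.Nonsingular x y), xc (pt h) = ‖x‖ := fun _ _ _ => rfl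
    obtain ⟨C, hC⟩ := (hfin.image xc).bddAbove
    refine ⟨max 1 C, le_max_left _ _, ?_⟩
    intro P hP hb
    rcases pt_cases P with rfl | ⟨x, y, h, rfl⟩
    · rfl
    · exfalso
      have h1 := big_pt.1 hb
      have h2 : xc (pt h) ≤ C := hC ⟨_, hP, rfl⟩
      rw [hxc] at h2
      have h3 := le_max_right 1 C
      linarith
  obtain ⟨C, hC⟩ := hdiv B
  refine ⟨C, ?_⟩
  intro b hb hnorm
  choose b' hbb hb' using fun i => hC (b i) (hb i).2
  have hbb' : p ^ m • b' = b := funext hbb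
  have hsubB : ∀ P R : Pt V, Big B P → Big B R → Big B (P - R) := by
    intro P R hP hR
    rw [sub_eq_add_neg]
    exact bigB_add hF na hB1 hP (big_neg hR)
  have hb'N : ∀ i, b' i ∈ Fix hV N := by
    intro i
    rw [mem_Fix]
    intro σ hσ
    have h1 : p ^ m • (T hV σ (b' i) - b' i) = 0 := by
      rw [smul_sub, ← map_nsmul, hbb, (mem_Fix hV N (b i)).1 (hb i).1 σ hσ, sub_self]
    have h2 := hB _ h1 (hsubB _ _ (big_T hV _ (hS.iso _) (hb' i)) (hb' i))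
    exact sub_eq_zero.1 h2
  have hbn : ∑ k ∈ Finset.range (p ^ m), tw hV (A ^ k) (φ ^ k) b' = 0 := by
    have h1 : p ^ m • ∑ k ∈ Finset.range (p ^ m), tw hV (A ^ k) (φ ^ k) b' = 0 := by
      rw [Finset.smul_sum]
      have : ∀ k ∈ Finset.range (p ^ m), p ^ m • tw hV (A ^ k) (φ ^ k) b' =
          tw hV (A ^ k) (φ ^ k) b := by
        intro k _
        rw [← map_nsmul, hbb']
      rw [Finset.sum_congr rfl this, hnorm]
    funext i
    refine hB _ (congrFun h1 i) ?_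
    rw [Finset.sum_apply]
    exact bigB_sum hF na hB1 _ _ fun k _ => bigB_tw hF na hB1 hV _ _ (hS.iso _) hb' i
  refine ⟨-(∑ i ∈ Finset.range (p ^ m), ∑ l ∈ Finset.range i, tw hV (A ^ l) (φ ^ l) b'), ?_, ?_⟩
  · intro i
    have e : (-(∑ i ∈ Finset.range (p ^ m), ∑ l ∈ Finset.range i, tw hV (A ^ l) (φ ^ l) b')) i =
        -(∑ k ∈ Finset.range (p ^ m), ∑ l ∈ Finset.range k, tw hV (A ^ l) (φ ^ l) b' i) := by
      rw [Pi.neg_apply, Finset.sum_apply]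
      congr 1
      refine Finset.sum_congr rfl fun k _ => ?_
      rw [Finset.sum_apply]
    rw [e]
    constructor
    · refine AddSubgroup.neg_mem _ (AddSubgroup.sum_mem _ fun k _ =>
        AddSubgroup.sum_mem _ fun l _ => ?_)
      exact tw_fix hV N hS.nor _ _ hb'N i
    · refine big_neg (bigB_sum hF na le_rfl _ _ fun k _ => bigB_sum hF na le_rfl _ _ fun l _ => ?_)
      exact bigB_tw hF na le_rfl hV _ _ (hS.iso _) (fun j => big_mono hB1 (hb' j)) i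
  · rw [cobg, hbn, sub_zero, hbb']

theorem ehg (hFA : S_FA) (hST : S_STg) (hDE : S_DEg) : S_EHg := by
  intro Ω _ _ _ G N φ p m Q hS V hV1 hV g A hA b hb hnorm
  have na := hS.na
  have hF : FAV V := hFA Ω na V hV1
  obtain ⟨π, hπ0, hπ1, hπG, hun⟩ := hS.unif
  obtain ⟨C, hC⟩ := hDE Ω G N φ p m Q hS V hV1 hV g A hA
  have hbt : ∀ i, ‖tt (b i)‖ ≤ ‖π‖ := fun i => hun _ (tt_fix hV N (hb i).1) (tt_lt hF (hb i).2)
  have hTR : ∀ R : Fin g → Pt V, (∀ i, R i ∈ Fix hV N) → ∀ i, (tw hV A φ R - R) i ∈ Fix hV N :=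
    fun R hR i => AddSubgroup.sub_mem _ (tw_fix hV N hS.nor _ _ hR i) (hR i)
  have hBR : ∀ R : Fin g → Pt V, (∀ i, Big 1 (R i)) → ∀ i, Big 1 ((tw hV A φ R - R) i) := by
    intro R hR i
    rw [Pi.sub_apply, sub_eq_add_neg]
    exact bigB_add hF na le_rfl (bigB_tw hF na le_rfl hV _ _ (hS.iso _) hR i) (big_neg (hR i))
  have hnb : ∀ R : Fin g → Pt V, (∀ i, R i ∈ Fix hV N) →
      ∑ k ∈ Finset.range (p ^ m), tw hV (A ^ k) (φ ^ k) (b - (tw hV A φ R - R)) = 0 := by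
    intro R hR
    have h0 : tw hV (A ^ p ^ m) (φ ^ p ^ m) R = R := by
      funext i
      rw [hA, tw_one]
      exact (mem_Fix hV N (R i)).1 (hR i) _ hS.phiM
    have : ∀ k ∈ Finset.range (p ^ m), tw hV (A ^ k) (φ ^ k) (b - (tw hV A φ R - R)) =
        tw hV (A ^ k) (φ ^ k) b - tw hV (A ^ k) (φ ^ k) (tw hV A φ R - R) := fun k _ => map_sub _ _ _
    rw [Finset.sum_congr rfl this, Finset.sum_sub_distrib, hnorm, norm_boundg, h0, sub_self,
      sub_zero]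
  have hbF : ∀ R : Fin g → Pt V, (∀ i, R i ∈ Fix hV N) →
      ∀ i, (b - (tw hV A φ R - R)) i ∈ Fix hV N :=
    fun R hR i => AddSubgroup.sub_mem _ (hb i).1 (hTR R hR i)
  have hbb : ∀ R : Fin g → Pt V, (∀ i, Big 1 (R i)) → ∀ i, Big 1 ((b - (tw hV A φ R - R)) i) := by
    intro R hR i
    rw [Pi.sub_apply, sub_eq_add_neg]
    exact bigB_add hF na le_rfl (hb i).2 (big_neg (hBR R hR i))
  have key : ∀ k : ℕ, ∃ R : Fin g → Pt V, ∀ i, R i ∈ Fix hV N ∧ Big 1 (R i) ∧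
      ‖tt ((b - (tw hV A φ R - R)) i)‖ ≤ ‖π‖ ^ (k + 1) := by
    intro k
    induction k with
    | zero =>
      refine ⟨0, fun i => ⟨AddSubgroup.zero_mem _, big_zero 1, ?_⟩⟩
      rw [map_zero, sub_self, sub_zero, zero_add, pow_one]
      exact hbt i
    | succ k ih =>
      obtain ⟨R, hR⟩ := ih
      obtain ⟨R', hR'⟩ := hST Ω G N φ p m Q hS V hV1 hV π hπ0 hπ1 hπG hun g A hA (k + 1)
        (by omega) (b - (tw hV A φ R - R))
        (fun i => ⟨hbF R (fun i => (hR i).1) i, hbb R (fun i => (hR i).2.1) i, (hR i).2.2⟩)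
        (hnb R (fun i => (hR i).1))
      refine ⟨R + R', fun i => ⟨AddSubgroup.add_mem _ (hR i).1 (hR' i).1,
        bigB_add hF na le_rfl (hR i).2.1 (hR' i).2.1, ?_⟩⟩
      have e : b - (tw hV A φ (R + R') - (R + R')) =
          b - (tw hV A φ R - R) - (tw hV A φ R' - R') := by
        rw [map_add]
        abel
      rw [e]
      exact (hR' i).2.2
  -- the parameter is small enough
  obtain ⟨k, hk⟩ : ∃ k : ℕ, max 1 C * (‖π‖ ^ (k + 1)) ^ 2 < 1 := by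
    have hM0 : 0 < max 1 C := lt_of_lt_of_le zero_lt_one (le_max_left _ _)
    obtain ⟨k, hk⟩ := exists_pow_lt_of_lt_one (one_div_pos.2 hM0) hπ1
    refine ⟨k, ?_⟩
    have h1 : (‖π‖ ^ (k + 1)) ^ 2 ≤ ‖π‖ ^ k := by
      rw [← pow_mul]
      exact pow_le_pow_of_le_one hπ0.le hπ1.le (by omega)
    calc max 1 C * (‖π‖ ^ (k + 1)) ^ 2 ≤ max 1 C * ‖π‖ ^ k := mul_le_mul_of_nonneg_left h1 hM0.le
      _ < max 1 C * (1 / max 1 C) := mul_lt_mul_of_pos_left hk hM0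
      _ = 1 := by field_simp
  obtain ⟨R, hR⟩ := key k
  have hbig : ∀ i, Big C ((b - (tw hV A φ R - R)) i) := by
    intro i
    refine big_mono (le_max_right 1 C) ((big_iff hF (le_max_left 1 C)
      (hbb R (fun i => (hR i).2.1) i)).2 ?_)
    have h1 : ‖tt ((b - (tw hV A φ R - R)) i)‖ ^ 2 ≤ (‖π‖ ^ (k + 1)) ^ 2 :=
      pow_le_pow_left₀ (norm_nonneg _) (hR i).2.2 2
    have hM0 : 0 ≤ max 1 C := le_trans zero_le_one (le_max_left _ _)
    nlinarith [mul_le_mul_of_nonneg_left h1 hM0]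
  obtain ⟨R', hR', he⟩ := hC (b - (tw hV A φ R - R))
    (fun i => ⟨hbF R (fun i => (hR i).1) i, hbig i⟩) (hnb R (fun i => (hR i).1))
  refine ⟨R + R', fun i => ⟨AddSubgroup.add_mem _ (hR i).1 (hR' i).1,
    bigB_add hF na le_rfl (hR i).2.1 (hR' i).2⟩, ?_⟩
  have e : tw hV A φ (R + R') - (R + R') = (tw hV A φ R - R) + (tw hV A φ R' - R') := by
    rw [map_add]
    abel
  rw [e, he]
  abel

end Pool.Agent.P8H89.UL
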