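import Pool.Agent.P8H89.UL.ST
import Pool.Agent.P8H17.UL.Vec

/-! Project UL of helper17, package ST, vector form (helper89). -/

set_option autoImplicit false
set_option linter.unusedVariables false

open WeierstrassCurve

namespace Pool.Agent.P8H89.UL

open Pool.Agent.P8H17.UL

section ap

variable {Ω : Type} [NormedField Ω] {V : WeierstrassCurve Ω}

/-- `t` is the parameter of `P` up to `r ^ 2` -/
structure Ap (r : ℝ) (P : Pt V) (t : Ω) : Prop where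
  big : Big 1 P
  le : ‖tt P‖ ≤ r
  ap : ‖tt P - t‖ ≤ r ^ 2

lemma na_sub (na : ∀ x y : Ω, ‖x + y‖ ≤ max ‖x‖ ‖y‖) (x y : Ω) : ‖x - y‖ ≤ max ‖x‖ ‖y‖ := by
  have := na x (-y)
  rwa [norm_neg, ← sub_eq_add_neg] at this

lemma Ap.mk' {P : Pt V} {r : ℝ} (hP : Big 1 P) (h : ‖tt P‖ ≤ r) : Ap r P (tt P) :=
  ⟨hP, h, by rw [sub_self, norm_zero]; positivity⟩

lemma Ap.zero {r : ℝ} (hr : 0 ≤ r) : Ap r (0 : Pt V) 0 :=
  ⟨big_zero 1, by rw [tt_zero, norm_zero]; exact hr, by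
    rw [tt_zero, sub_zero, norm_zero]; positivity⟩

lemma Ap.add (hF : FAV V) (na : ∀ x y : Ω, ‖x + y‖ ≤ max ‖x‖ ‖y‖) {r : ℝ} {P R : Pt V} {t u : Ω}
    (hP : Ap r P t) (hR : Ap r R u) : Ap r (P + R) (t + u) := by
  obtain ⟨h1, h2, h3⟩ := big_add hF na hP.big hR.big hP.le hR.le
  refine ⟨h1, h2, ?_⟩
  have e : tt (P + R) - (t + u) = (tt (P + R) - tt P - tt R) + ((tt P - t) + (tt R - u)) := by ring
  rw [e]
  exact (na _ _).trans (max_le h3 ((na _ _).trans (max_le hP.ap hR.ap)))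

lemma Ap.neg (hF : FAV V) (na : ∀ x y : Ω, ‖x + y‖ ≤ max ‖x‖ ‖y‖) {r : ℝ} {P : Pt V} {t : Ω}
    (hP : Ap r P t) : Ap r (-P) (-t) := by
  refine ⟨big_neg hP.big, (tt_neg_le hF na hP.big).trans hP.le, ?_⟩
  have e : tt (-P) - -t = (tt (-P) + tt P) - (tt P - t) := by ring
  rw [e]
  refine (na_sub na _ _).trans (max_le ?_ hP.ap)
  exact (hF.2.1 P hP.big).trans (pow_le_pow_left₀ (norm_nonneg _) hP.le 2)

lemma Ap.sub (hF : FAV V) (na : ∀ x y : Ω, ‖x + y‖ ≤ max ‖x‖ ‖y‖) {r : ℝ} {P R : Pt V} {t u : Ω}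
    (hP : Ap r P t) (hR : Ap r R u) : Ap r (P - R) (t - u) := by
  rw [sub_eq_add_neg, sub_eq_add_neg]
  exact hP.add hF na (hR.neg hF na)

lemma Ap.sum (hF : FAV V) (na : ∀ x y : Ω, ‖x + y‖ ≤ max ‖x‖ ‖y‖) {r : ℝ} (hr : 0 ≤ r) {ι : Type}
    (s : Finset ι) (P : ι → Pt V) (t : ι → Ω) (h : ∀ i ∈ s, Ap r (P i) (t i)) :
    Ap r (∑ i ∈ s, P i) (∑ i ∈ s, t i) := by
  classical
  induction s using Finset.induction_on with
  | empty =>
    rw [Finset.sum_empty, Finset.sum_empty]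
    exact Ap.zero hr
  | insert a s ha ih =>
    rw [Finset.sum_insert ha, Finset.sum_insert ha]
    exact (h a (Finset.mem_insert_self _ _)).add hF na
      (ih fun i hi => h i (Finset.mem_insert_of_mem hi))

lemma Ap.nsmul (hF : FAV V) (na : ∀ x y : Ω, ‖x + y‖ ≤ max ‖x‖ ‖y‖) {r : ℝ} (hr : 0 ≤ r)
    {P : Pt V} {t : Ω} (hP : Ap r P t) (n : ℕ) : Ap r (n • P) ((n : Ω) * t) := by
  induction n with
  | zero =>
    rw [zero_nsmul, Nat.cast_zero, zero_mul]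
    exact Ap.zero hr
  | succ n ih =>
    rw [succ_nsmul, Nat.cast_succ, add_mul, one_mul]
    exact ih.add hF na hP

lemma Ap.zsmul (hF : FAV V) (na : ∀ x y : Ω, ‖x + y‖ ≤ max ‖x‖ ‖y‖) {r : ℝ} (hr : 0 ≤ r)
    {P : Pt V} {t : Ω} (hP : Ap r P t) (n : ℤ) : Ap r (n • P) ((n : Ω) * t) := by
  obtain ⟨k, rfl | rfl⟩ := Int.eq_nat_or_neg n
  · rw [natCast_zsmul, Int.cast_natCast]
    exact hP.nsmul hF na hr k
  · rw [neg_zsmul, natCast_zsmul, Int.cast_neg, Int.cast_natCast, neg_mul]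
    exact (hP.nsmul hF na hr k).neg hF na

end ap

section cong

variable {Ω : Type} [NormedField Ω]

lemma int_le (na : ∀ x y : Ω, ‖x + y‖ ≤ max ‖x‖ ‖y‖) (c : ℤ) : ‖(c : Ω)‖ ≤ 1 := by
  have h : (c : Ω) ∈ intR na := intCast_mem _ c
  exact h

/-- integers and the power `Q` -/
lemma int_pow_cg (na : ∀ x y : Ω, ‖x + y‖ ≤ max ‖x‖ ‖y‖) {l f Q : ℕ} (hl : l.Prime)
    (hQ : Q = l ^ f) (hl1 : ‖(l : Ω)‖ < 1) (c : ℤ) : Cg ((c : Ω) ^ Q) (c : Ω) := by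
  have hQ0 : Q ≠ 0 := by
    rw [hQ]
    exact pow_ne_zero _ hl.ne_zero
  have hn : ∀ n : ℕ, Cg ((n : Ω) ^ Q) (n : Ω) := by
    intro n
    induction n with
    | zero =>
      rw [Nat.cast_zero, zero_pow hQ0]
      exact cg_refl 0
    | succ n ih =>
      rw [Nat.cast_succ]
      have h1 : ‖(n : Ω)‖ ≤ 1 := by
        have := int_le na (n : ℤ)
        rwa [Int.cast_natCast] at this
      have h2 := add_pow_cg na hl hQ hl1 h1 (by rw [norm_one] : ‖(1 : Ω)‖ ≤ 1)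
      rw [one_pow] at h2
      exact cg_trans na h2 (cg_add na ih (cg_refl 1))
  obtain ⟨k, rfl | rfl⟩ := Int.eq_nat_or_neg c
  · rw [Int.cast_natCast]
    exact hn k
  · rw [Int.cast_neg, Int.cast_natCast]
    have h1 : ‖(k : Ω)‖ ≤ 1 := by
      have := int_le na (k : ℤ)
      rwa [Int.cast_natCast] at this
    have h2 := add_pow_cg na hl hQ hl1 h1 (by rwa [norm_neg] : ‖-(k : Ω)‖ ≤ 1)
    rw [add_neg_cancel, zero_pow hQ0] at h2
    have h3 := cg_sub na (cg_symm h2) (hn k)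
    have e1 : (k : Ω) ^ Q + (-(k : Ω)) ^ Q - (k : Ω) ^ Q = (-(k : Ω)) ^ Q := by ring
    rw [e1, zero_sub] at h3
    exact h3

lemma cg_cmul (na : ∀ x y : Ω, ‖x + y‖ ≤ max ‖x‖ ‖y‖) (c : ℤ) {x y : Ω} (h : Cg x y) :
    Cg ((c : Ω) * x) ((c : Ω) * y) := by
  unfold Cg at *
  rw [← mul_sub, norm_mul]
  calc ‖(c : Ω)‖ * ‖x - y‖ ≤ 1 * ‖x - y‖ := mul_le_mul_of_nonneg_right (int_le na c) (norm_nonneg _)
    _ < 1 := by rw [one_mul]; exact h

lemma cmul_le (na : ∀ x y : Ω, ‖x + y‖ ≤ max ‖x‖ ‖y‖) (c : ℤ) {x : Ω} (h : ‖x‖ ≤ 1) :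
    ‖(c : Ω) * x‖ ≤ 1 := by
  rw [norm_mul]
  exact mul_le_one₀ (int_le na c) (norm_nonneg _) h

/-- the power `Q` of an integral combination -/
lemma comb_pow (na : ∀ x y : Ω, ‖x + y‖ ≤ max ‖x‖ ‖y‖) {l f Q : ℕ} (hl : l.Prime)
    (hQ : Q = l ^ f) (hl1 : ‖(l : Ω)‖ < 1) {ι : Type} (s : Finset ι) (c : ι → ℤ) (x : ι → Ω)
    (hx : ∀ i ∈ s, ‖x i‖ ≤ 1) :
    Cg ((∑ i ∈ s, (c i : Ω) * x i) ^ Q) (∑ i ∈ s, (c i : Ω) * x i ^ Q) := by
  obtain ⟨h1, -⟩ := sum_pow_cg na hl hQ hl1 s (fun i => (c i : Ω) * x i)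
    (fun i hi => cmul_le na _ (hx i hi))
  refine cg_trans na h1 (cg_sum na _ _ _ fun i hi => ?_)
  rw [mul_pow]
  have h2 := pow_le_one' (hx i hi) Q
  have h3 := int_pow_cg na hl hQ hl1 (c i)
  exact cg_mul na h3 (cg_refl _) (pow_le_one' (int_le na _) Q) h2

end cong

theorem stg (hFA : S_FA) (hFB : S_FB) (hTE : S_TE) : S_STg := by
  intro Ω _ _ _ G N φ p m Q hS V hV1 hV π hπ0 hπ1 hπG hun g A hA n hn b hb hnorm
  have na := hS.na
  have hF : FAV V := hFA Ω na V hV1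
  obtain ⟨hB1, hB2⟩ := hFB Ω na V hV1
  obtain ⟨l, f, hl, hQl, hl1⟩ := hS.resc
  have hπ : π ≠ 0 := norm_pos_iff.1 hπ0
  have hπn : π ^ n ≠ 0 := pow_ne_zero _ hπ
  have hπn0 : 0 < ‖π‖ ^ n := pow_pos hπ0 n
  have hπn1 : ‖π‖ ^ n < 1 := pow_lt_one₀ hπ0.le hπ1 (by omega)
  have hM0 : p ^ m ≠ 0 := pow_ne_zero _ hS.hp.ne_zero
  -- the elements s i
  set s : Fin g → Ω := fun i => tt (b i) / π ^ n with hsdef
  have hts : ∀ i, tt (b i) = π ^ n * s i := by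
    intro i
    rw [hsdef]
    field_simp
  have hs1 : ∀ i, ‖s i‖ ≤ 1 := by
    intro i
    rw [hsdef]
    change ‖tt (b i) / π ^ n‖ ≤ 1
    rw [norm_div, norm_pow]
    exact div_le_one_of_le₀ (hb i).2.2 hπn0.le
  have hπτ : ∀ τ : G, (τ : RingAut Ω) (π ^ n) = π ^ n := by
    intro τ
    have : (τ : RingAut Ω) (π ^ n) = ((τ : RingAut Ω) π) ^ n := map_pow _ _ _
    rw [this, hπG]
  have hπm : ∀ (τ : G) (x : Ω), (τ : RingAut Ω) (π ^ n * x) = π ^ n * (τ : RingAut Ω) x := by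
    intro τ x
    have : (τ : RingAut Ω) (π ^ n * x) = (τ : RingAut Ω) (π ^ n) * (τ : RingAut Ω) x :=
      map_mul _ _ _
    rw [this, hπτ]
  have hsN : ∀ i, ∀ σ ∈ N, (σ : RingAut Ω) (s i) = s i := by
    intro i σ hσ
    have h1 := tt_fix hV N (hb i).1 σ hσ
    have h2 : (σ : RingAut Ω) (s i) = (σ : RingAut Ω) (tt (b i)) / (σ : RingAut Ω) (π ^ n) :=
      map_div₀ _ _ _
    rw [h2, h1, hπτ]
  -- the sum of the conjugates of s
  have hsum : ∀ i, ‖∑ k ∈ Finset.range (p ^ m), ∑ j, ((A ^ k) i j : Ω) *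
      ((φ ^ k : G) : RingAut Ω) (s j)‖ < 1 := by
    intro i
    have h3 : Ap (‖π‖ ^ n) (∑ k ∈ Finset.range (p ^ m), ∑ j, (A ^ k) i j • T hV (φ ^ k) (b j))
        (∑ k ∈ Finset.range (p ^ m), ∑ j, ((A ^ k) i j : Ω) * tt (T hV (φ ^ k) (b j))) := by
      refine Ap.sum hF na hπn0.le _ _ _ fun k _ => Ap.sum hF na hπn0.le _ _ _ fun j _ => ?_
      refine (Ap.mk' (big_T hV _ (hS.iso _) (hb j).2.1) ?_).zsmul hF na hπn0.le _
      rw [tt_T, hS.iso]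
      exact (hb j).2.2
    have h4 : ∑ k ∈ Finset.range (p ^ m), ∑ j, (A ^ k) i j • T hV (φ ^ k) (b j) = 0 := by
      have := congrFun hnorm i
      rw [Finset.sum_apply] at this
      exact this
    rw [h4] at h3
    have h5 := h3.ap
    rw [tt_zero, zero_sub, norm_neg] at h5
    have e : ∑ k ∈ Finset.range (p ^ m), ∑ j, ((A ^ k) i j : Ω) * tt (T hV (φ ^ k) (b j)) =
        π ^ n * ∑ k ∈ Finset.range (p ^ m), ∑ j, ((A ^ k) i j : Ω) *
          ((φ ^ k : G) : RingAut Ω) (s j) := by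
      rw [Finset.mul_sum]
      refine Finset.sum_congr rfl fun k _ => ?_
      rw [Finset.mul_sum]
      refine Finset.sum_congr rfl fun j _ => ?_
      rw [tt_T, hts, hπm]
      ring
    rw [e, norm_mul, norm_pow, pow_two] at h5
    exact (le_of_mul_le_mul_left h5 hπn0).trans_lt hπn1
  have hsum2 : ∀ i, Cg (∑ k ∈ Finset.range (p ^ m), ∑ j, ((A ^ k) i j : Ω) * s j ^ Q ^ k) 0 := by
    intro i
    have h1 : Cg (∑ k ∈ Finset.range (p ^ m), ∑ j, ((A ^ k) i j : Ω) *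
        ((φ ^ k : G) : RingAut Ω) (s j))
        (∑ k ∈ Finset.range (p ^ m), ∑ j, ((A ^ k) i j : Ω) * s j ^ Q ^ k) :=
      cg_sum na _ _ _ fun k _ => cg_sum na _ _ _ fun j _ =>
        cg_cmul na _ (phi_pow hS (hs1 j) (hsN j) k)
    refine cg_trans na (cg_symm h1) ?_
    unfold Cg
    rw [sub_zero]
    exact hsum i
  -- the elements y, z
  have hQM : 1 < Q ^ p ^ m := Nat.one_lt_pow hM0 hS.Q2
  choose y hys hy1 using fun j => as_solve (Ω := Ω) hQM na (hs1 j)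
  set z : Fin g → Ω := fun i => ∑ k ∈ Finset.range (p ^ m), ∑ j, ((A ^ k) i j : Ω) * y j ^ Q ^ k
    with hz
  have hle : ∀ (c : ℕ → Fin g → ℤ) (x : ℕ → Fin g → Ω) (K : Finset ℕ), (∀ k j, ‖x k j‖ ≤ 1) →
      ‖∑ k ∈ K, ∑ j, (c k j : Ω) * x k j‖ ≤ 1 := by
    intro c x K hx
    have h1 : ∑ k ∈ K, ∑ j, (c k j : Ω) * x k j ∈ intR na := by
      refine Subring.sum_mem _ fun k _ => Subring.sum_mem _ fun j _ => ?_
      exact cmul_le na _ (hx k j)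
    exact h1
  have hz1 : ∀ i, ‖z i‖ ≤ 1 := fun i => hle (fun k j => (A ^ k) i j) (fun k j => y j ^ Q ^ k) _
    fun k j => pow_le_one' (hy1 j) _
  -- a power of z
  have hpw : ∀ (q e : ℕ), q = l ^ e → ∀ i, Cg (z i ^ q)
      (∑ k ∈ Finset.range (p ^ m), ∑ j, ((A ^ k) i j : Ω) * (y j ^ Q ^ k) ^ q) := by
    intro q e hq i
    have h1 := comb_pow na hl hq hl1 ((Finset.range (p ^ m)) ×ˢ (Finset.univ : Finset (Fin g)))
      (fun u => (A ^ u.1) i u.2) (fun u => y u.2 ^ Q ^ u.1) (fun u _ => pow_le_one' (hy1 _) _)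
    rw [Finset.sum_product, Finset.sum_product] at h1
    exact h1
  have hzM : ∀ i, Cg (z i ^ Q ^ p ^ m) (z i) := by
    intro i
    have hq : Q ^ p ^ m = l ^ (f * p ^ m) := by rw [hQl, ← pow_mul]
    refine cg_trans na (hpw _ _ hq i) ?_
    have h1 : Cg (∑ k ∈ Finset.range (p ^ m), ∑ j, ((A ^ k) i j : Ω) * (y j ^ Q ^ k) ^ Q ^ p ^ m)
        (∑ k ∈ Finset.range (p ^ m), ∑ j, ((A ^ k) i j : Ω) * (y j ^ Q ^ k + s j ^ Q ^ k)) := by
      refine cg_sum na _ _ _ fun k _ => cg_sum na _ _ _ fun j _ => cg_cmul na _ ?_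
      have e1 : (y j ^ Q ^ k) ^ Q ^ p ^ m = (y j + s j) ^ Q ^ k := by
        rw [← pow_mul, mul_comm, pow_mul]
        congr 1
        rw [← hys j]
        ring
      rw [e1]
      have hq2 : Q ^ k = l ^ (f * k) := by rw [hQl, ← pow_mul]
      exact add_pow_cg na hl hq2 hl1 (hy1 j) (hs1 j)
    refine cg_trans na h1 ?_
    have e2 : ∑ k ∈ Finset.range (p ^ m), ∑ j, ((A ^ k) i j : Ω) * (y j ^ Q ^ k + s j ^ Q ^ k) =
        z i + ∑ k ∈ Finset.range (p ^ m), ∑ j, ((A ^ k) i j : Ω) * s j ^ Q ^ k := by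
      rw [hz]
      simp only [mul_add, Finset.sum_add_distrib]
    rw [e2]
    have := cg_add na (cg_refl (z i)) (hsum2 i)
    rwa [add_zero] at this
  have hzQ : ∀ i, Cg (∑ j, (A i j : Ω) * z j ^ Q) (z i + s i) := by
    intro i
    have h1 : Cg (∑ j, (A i j : Ω) * z j ^ Q) (∑ j, (A i j : Ω) *
        ∑ k ∈ Finset.range (p ^ m), ∑ j', ((A ^ k) j j' : Ω) * (y j' ^ Q ^ k) ^ Q) :=
      cg_sum na _ _ _ fun j _ => cg_cmul na _ (hpw Q f hQl j)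
    refine cg_trans na h1 ?_
    have e1 : ∑ j, (A i j : Ω) *
        ∑ k ∈ Finset.range (p ^ m), ∑ j', ((A ^ k) j j' : Ω) * (y j' ^ Q ^ k) ^ Q =
        ∑ k ∈ Finset.range (p ^ m), ∑ j', ((A ^ (k + 1)) i j' : Ω) * y j' ^ Q ^ (k + 1) := by
      simp only [Finset.mul_sum]
      rw [Finset.sum_comm]
      refine Finset.sum_congr rfl fun k _ => ?_
      rw [Finset.sum_comm]
      refine Finset.sum_congr rfl fun j' _ => ?_
      rw [pow_succ' A k, Matrix.mul_apply, Int.cast_sum, Finset.sum_mul]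
      refine Finset.sum_congr rfl fun j _ => ?_
      rw [← pow_mul, ← pow_succ, Int.cast_mul]
      ring
    have e2 : ∑ k ∈ Finset.range (p ^ m), ∑ j', ((A ^ (k + 1)) i j' : Ω) * y j' ^ Q ^ (k + 1) +
        ∑ j', ((A ^ 0) i j' : Ω) * y j' ^ Q ^ 0 =
        z i + ∑ j', ((A ^ (p ^ m)) i j' : Ω) * y j' ^ Q ^ (p ^ m) := by
      rw [hz]
      simp only
      rw [← Finset.sum_range_succ' (fun k => ∑ j', ((A ^ k) i j' : Ω) * y j' ^ Q ^ k),
        Finset.sum_range_succ]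
    have e3 : ∀ x : Fin g → Ω, ∑ j', ((1 : Matrix (Fin g) (Fin g) ℤ) i j' : Ω) * x j' = x i := by
      intro x
      rw [Finset.sum_eq_single i]
      · rw [Matrix.one_apply_eq, Int.cast_one, one_mul]
      · intro j' _ hj'
        rw [Matrix.one_apply_ne hj'.symm, Int.cast_zero, zero_mul]
      · intro h
        exact absurd (Finset.mem_univ i) h
    rw [hA, pow_zero, e3, e3] at e2
    rw [pow_zero, pow_one] at e2
    have e4 : ∑ k ∈ Finset.range (p ^ m), ∑ j', ((A ^ (k + 1)) i j' : Ω) * y j' ^ Q ^ (k + 1) =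
        z i + s i := by
      have := hys i
      linear_combination e2 + this
    rw [e1, e4]
    exact cg_refl _
  -- lifting
  choose z' hz'N hz'z using fun i => hTE Ω G N φ p m Q hS (z i) (hz1 i) (hzM i)
  have hz'1 : ∀ i, ‖z' i‖ ≤ 1 := fun i => norm_le_of_cg na (hz'z i) (hz1 i)
  have hfz : ∀ i, Cg ((φ : RingAut Ω) (z' i)) (z i ^ Q) := fun i =>
    cg_trans na (hS.frob (z' i) (hz'1 i) (hS.resfix (z' i) (hz'1 i) (hz'N i)))
      (cg_pow na (hz'z i) (hz1 i) Q)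
  have hzr : ∀ i, ‖π ^ n * z' i‖ ≤ ‖π‖ ^ n := by
    intro i
    rw [norm_mul, norm_pow]
    calc ‖π‖ ^ n * ‖z' i‖ ≤ ‖π‖ ^ n * 1 := mul_le_mul_of_nonneg_left (hz'1 i) hπn0.le
      _ = ‖π‖ ^ n := mul_one _
  choose R hR1 hRt using fun i => hB1 _ ((hzr i).trans_lt hπn1)
  have hRN : ∀ i, R i ∈ Fix hV N := by
    intro i
    rw [mem_Fix]
    intro σ hσ
    refine hB2 _ _ (big_T hV _ (hS.iso _) (hR1 i)) (hR1 i) ?_
    rw [tt_T, hRt, hπm, hz'N i σ hσ]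
  refine ⟨R, fun i => ⟨hRN i, hR1 i, ?_⟩⟩
  set r : ℝ := ‖π‖ ^ n with hr
  have hRA : ∀ j, Ap r (R j) (π ^ n * z' j) := by
    intro j
    have := Ap.mk' (r := r) (hR1 j) (by rw [hRt]; exact hzr j)
    rwa [hRt] at this
  have hTRA : ∀ j, Ap r (T hV φ (R j)) (π ^ n * (φ : RingAut Ω) (z' j)) := by
    intro j
    have := Ap.mk' (r := r) (big_T hV φ (hS.iso _) (hR1 j)) (by
      rw [tt_T, hRt, hS.iso]
      exact hzr j)
    rwa [tt_T, hRt, hπm] at this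
  have hbA : Ap r (b i) (π ^ n * s i) := by
    have := Ap.mk' (r := r) (hb i).2.1 (hb i).2.2
    rwa [hts] at this
  have hall : Ap r (b i - (∑ j, A i j • T hV φ (R j) - R i))
      (π ^ n * s i - (∑ j, (A i j : Ω) * (π ^ n * (φ : RingAut Ω) (z' j)) - π ^ n * z' i)) :=
    hbA.sub hF na ((Ap.sum hF na hπn0.le _ _ _ fun j _ =>
      (hTRA j).zsmul hF na hπn0.le _).sub hF na (hRA i))
  -- the main term
  set e : Ω := s i - (∑ j, (A i j : Ω) * (φ : RingAut Ω) (z' j) - z' i) with he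
  have heN : ∀ σ ∈ N, (σ : RingAut Ω) e = e := by
    intro σ hσ
    have h1 : (σ : RingAut Ω) e = (σ : RingAut Ω) (s i) - (∑ j, (A i j : Ω) *
        (σ : RingAut Ω) ((φ : RingAut Ω) (z' j)) - (σ : RingAut Ω) (z' i)) := by
      rw [he, map_sub, map_sub, map_sum]
      congr 2
      refine Finset.sum_congr rfl fun j _ => ?_
      rw [map_mul]
      congr 1
      exact map_intCast ((σ : RingAut Ω) : Ω ≃+* Ω) _
    rw [h1, hsN i σ hσ, hz'N i σ hσ, he]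
    congr 2
    refine Finset.sum_congr rfl fun j _ => ?_
    rw [fix_el N hS.nor φ (hz'N j) σ hσ]
  have he1 : ‖e‖ < 1 := by
    have h1 : Cg (∑ j, (A i j : Ω) * (φ : RingAut Ω) (z' j)) (z i + s i) :=
      cg_trans na (cg_sum na _ _ _ fun j _ => cg_cmul na _ (hfz j)) (hzQ i)
    have h2 := cg_sub na h1 (hz'z i)
    have e1 : z i + s i - z i = s i := by ring
    rw [e1] at h2
    exact cg_symm h2
  have he2 : ‖e‖ ≤ ‖π‖ := hun e heN he1
  have hr3 : r ^ 2 ≤ ‖π‖ ^ (n + 1) := by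
    rw [hr, ← pow_mul]
    exact pow_le_pow_of_le_one hπ0.le hπ1.le (by omega)
  have e5 : (b - (tw hV A φ R - R)) i = b i - (∑ j, A i j • T hV φ (R j) - R i) := rfl
  rw [e5]
  have e6 : tt (b i - (∑ j, A i j • T hV φ (R j) - R i)) =
      (tt (b i - (∑ j, A i j • T hV φ (R j) - R i)) -
        (π ^ n * s i - (∑ j, (A i j : Ω) * (π ^ n * (φ : RingAut Ω) (z' j)) - π ^ n * z' i))) +
      π ^ n * e := by
    have e7 : ∑ j, (A i j : Ω) * (π ^ n * (φ : RingAut Ω) (z' j)) =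
        π ^ n * ∑ j, (A i j : Ω) * (φ : RingAut Ω) (z' j) := by
      rw [Finset.mul_sum]
      refine Finset.sum_congr rfl fun j _ => ?_
      ring
    rw [he, e7]
    ring
  rw [e6]
  refine (na _ _).trans (max_le (hall.ap.trans hr3) ?_)
  rw [norm_mul, norm_pow, pow_succ]
  exact mul_le_mul_of_nonneg_left he2 hπn0.le

end Pool.Agent.P8H89.UL
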