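import Pool.Agent.P8H17.UL.Stm

/-! Project UL of helper17, common lemmas for the packages ST, DE, EH (helper89). -/

set_option autoImplicit false

open WeierstrassCurve
set_option linter.unusedVariables false

namespace Pool.Agent.P8H89.UL

open Pool.Agent.P8H17.UL

section pts

variable {Ω : Type} [NormedField Ω] {V : WeierstrassCurve Ω} {G : Subgroup (RingAut Ω)}

lemma tt_pt {x y : Ω} (h : V.toAffine.Nonsingular x y) : tt (pt h) = x / y := rfl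

lemma tt_zero : tt (0 : Pt V) = 0 := rfl

lemma tt_T (hV : FixW V G) (σ : G) (P : Pt V) : tt (T hV σ P) = (σ : RingAut Ω) (tt P) := by
  rcases pt_cases P with rfl | ⟨x, y, h, rfl⟩
  · rw [map_zero, tt_zero, map_zero]
  · rw [T_pt, tt_pt, tt_pt, map_div₀]
    rfl

lemma big_zero (B : ℝ) : Big B (0 : Pt V) := fun x y h e => absurd e.symm (pt_ne h)

lemma big_pt {B : ℝ} {x y : Ω} {h : V.toAffine.Nonsingular x y} : Big B (pt h) ↔ B < ‖x‖ := by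
  constructor
  · intro H
    exact H x y h rfl
  · intro H x' y' h' e
    obtain ⟨rfl, rfl⟩ := pt_inj e
    exact H

lemma big_neg {B : ℝ} {P : Pt V} (hP : Big B P) : Big B (-P) := by
  rcases pt_cases P with rfl | ⟨x, y, h, rfl⟩
  · rw [neg_zero]
    exact big_zero B
  · rw [neg_pt, big_pt]
    exact big_pt.1 hP

lemma big_T (hV : FixW V G) (σ : G) (hiso : ∀ x : Ω, ‖(σ : RingAut Ω) x‖ = ‖x‖) {B : ℝ} {P : Pt V}
    (hP : Big B P) : Big B (T hV σ P) := by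
  rcases pt_cases P with rfl | ⟨x, y, h, rfl⟩
  · rw [map_zero]
    exact big_zero B
  · rw [T_pt, big_pt]
    have := big_pt.1 hP
    exact lt_of_lt_of_eq this (hiso x).symm

lemma big_mono {B B' : ℝ} (h : B ≤ B') {P : Pt V} (hP : Big B' P) : Big B P :=
  fun x y hn e => h.trans_lt (hP x y hn e)

/-- the three conclusions of FA for a fixed equation -/
def FAV (V : WeierstrassCurve Ω) : Prop :=
    (∀ (x y : Ω), V.toAffine.Nonsingular x y → 1 < ‖x‖ → y ≠ 0 ∧ ‖x / y‖ ^ 2 * ‖x‖ = 1) ∧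
    (∀ P : Pt V, Big 1 P → ‖tt (-P) + tt P‖ ≤ ‖tt P‖ ^ 2) ∧
    ∀ P R : Pt V, Big 1 P → Big 1 R →
      Big 1 (P + R) ∧ ‖tt (P + R) - tt P - tt R‖ ≤ (max ‖tt P‖ ‖tt R‖) ^ 2

lemma big_iff (hF : FAV V) {B : ℝ} (hB : 1 ≤ B) {P : Pt V} (hP : Big 1 P) :
    Big B P ↔ B * ‖tt P‖ ^ 2 < 1 := by
  rcases pt_cases P with rfl | ⟨x, y, h, rfl⟩
  · simp [big_zero, tt_zero]
  · rw [big_pt, tt_pt]
    have h1 := big_pt.1 hP
    obtain ⟨hy, he⟩ := hF.1 x y h h1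
    have hx : 0 < ‖x‖ := by linarith
    have ht : 0 < ‖x / y‖ ^ 2 := by
      by_contra hc
      have : ‖x / y‖ ^ 2 = 0 := le_antisymm (not_lt.1 hc) (by positivity)
      rw [this, zero_mul] at he
      exact zero_ne_one he
    constructor
    · intro hb
      calc B * ‖x / y‖ ^ 2 < ‖x‖ * ‖x / y‖ ^ 2 := mul_lt_mul_of_pos_right hb ht
        _ = 1 := by rw [mul_comm]; exact he
    · intro hb
      have : B * ‖x / y‖ ^ 2 < ‖x‖ * ‖x / y‖ ^ 2 := by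
        rw [mul_comm ‖x‖, he]
        exact hb
      exact lt_of_mul_lt_mul_right this ht.le

lemma tt_lt (hF : FAV V) {P : Pt V} (hP : Big 1 P) : ‖tt P‖ < 1 := by
  have h := (big_iff hF le_rfl hP).1 hP
  rw [one_mul] at h
  by_contra hc
  have : (1:ℝ) ≤ ‖tt P‖ ^ 2 := one_le_pow₀ (not_lt.1 hc)
  linarith

lemma tt_neg_le (hF : FAV V) (na : ∀ x y : Ω, ‖x + y‖ ≤ max ‖x‖ ‖y‖) {P : Pt V} (hP : Big 1 P) :
    ‖tt (-P)‖ ≤ ‖tt P‖ := by
  have h1 := hF.2.1 P hP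
  have h2 := tt_lt hF hP
  have h0 := norm_nonneg (tt P)
  have h3 : tt (-P) = (tt (-P) + tt P) + -(tt P) := by ring
  rw [h3]
  refine (na _ _).trans (max_le ?_ (by rw [norm_neg]))
  refine h1.trans ?_
  nlinarith

lemma big_add (hF : FAV V) (na : ∀ x y : Ω, ‖x + y‖ ≤ max ‖x‖ ‖y‖) {P R : Pt V} (hP : Big 1 P)
    (hR : Big 1 R) {r : ℝ} (h1 : ‖tt P‖ ≤ r) (h2 : ‖tt R‖ ≤ r) :
    Big 1 (P + R) ∧ ‖tt (P + R)‖ ≤ r ∧ ‖tt (P + R) - tt P - tt R‖ ≤ r ^ 2 := by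
  obtain ⟨h3, h4⟩ := hF.2.2 P R hP hR
  have h5 := tt_lt hF hP
  have h6 := tt_lt hF hR
  have hm : max ‖tt P‖ ‖tt R‖ < 1 := max_lt h5 h6
  have hm0 : 0 ≤ max ‖tt P‖ ‖tt R‖ := le_max_of_le_left (norm_nonneg _)
  have hmr : max ‖tt P‖ ‖tt R‖ ≤ r := max_le h1 h2
  refine ⟨h3, ?_, h4.trans (pow_le_pow_left₀ hm0 hmr 2)⟩
  have h7 : tt (P + R) = (tt (P + R) - tt P - tt R) + (tt P + tt R) := by ring
  rw [h7]
  refine (na _ _).trans (max_le ?_ ((na _ _).trans hmr))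
  refine h4.trans (le_trans ?_ hmr)
  nlinarith

/-- Big `B` is closed under sums -/
lemma bigB_add (hF : FAV V) (na : ∀ x y : Ω, ‖x + y‖ ≤ max ‖x‖ ‖y‖) {B : ℝ} (hB : 1 ≤ B)
    {P R : Pt V} (hP : Big B P) (hR : Big B R) : Big B (P + R) := by
  have hP1 := big_mono hB hP
  have hR1 := big_mono hB hR
  obtain ⟨h1, h2, -⟩ := big_add hF na hP1 hR1 (le_max_left ‖tt P‖ ‖tt R‖) (le_max_right _ _)
  rw [big_iff hF hB h1]
  have e1 := (big_iff hF hB hP1).1 hP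
  have e2 := (big_iff hF hB hR1).1 hR
  have h3 : ‖tt (P + R)‖ ^ 2 ≤ (max ‖tt P‖ ‖tt R‖) ^ 2 := pow_le_pow_left₀ (norm_nonneg _) h2 2
  have h4 : B * (max ‖tt P‖ ‖tt R‖) ^ 2 < 1 := by
    rcases max_choice ‖tt P‖ ‖tt R‖ with h | h <;> rw [h] <;> assumption
  nlinarith [mul_le_mul_of_nonneg_left h3 (by linarith : (0:ℝ) ≤ B)]

lemma bigB_sum (hF : FAV V) (na : ∀ x y : Ω, ‖x + y‖ ≤ max ‖x‖ ‖y‖) {B : ℝ} (hB : 1 ≤ B)
    {ι : Type} (s : Finset ι) (P : ι → Pt V) (hP : ∀ i ∈ s, Big B (P i)) :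
    Big B (∑ i ∈ s, P i) := by
  classical
  induction s using Finset.induction_on with
  | empty =>
    rw [Finset.sum_empty]
    exact big_zero B
  | insert a s ha ih =>
    rw [Finset.sum_insert ha]
    exact bigB_add hF na hB (hP a (Finset.mem_insert_self _ _))
      (ih (fun i hi => hP i (Finset.mem_insert_of_mem hi)))

/-- the parameter of a sum -/
lemma tt_sum (hF : FAV V) (na : ∀ x y : Ω, ‖x + y‖ ≤ max ‖x‖ ‖y‖) {r : ℝ} (hr : 0 ≤ r)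
    {ι : Type} (s : Finset ι) (P : ι → Pt V) (hP : ∀ i ∈ s, Big 1 (P i))
    (ht : ∀ i ∈ s, ‖tt (P i)‖ ≤ r) :
    Big 1 (∑ i ∈ s, P i) ∧ ‖tt (∑ i ∈ s, P i)‖ ≤ r ∧
      ‖tt (∑ i ∈ s, P i) - ∑ i ∈ s, tt (P i)‖ ≤ r ^ 2 := by
  classical
  induction s using Finset.induction_on with
  | empty =>
    rw [Finset.sum_empty, Finset.sum_empty, tt_zero]
    refine ⟨big_zero 1, ?_, ?_⟩
    · simpa using hr
    · simp only [sub_zero, norm_zero]
      positivity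
  | insert a s ha ih =>
    rw [Finset.sum_insert ha, Finset.sum_insert ha]
    obtain ⟨i1, i2, i3⟩ := ih (fun i hi => hP i (Finset.mem_insert_of_mem hi))
      (fun i hi => ht i (Finset.mem_insert_of_mem hi))
    obtain ⟨j1, j2, j3⟩ := big_add hF na (hP a (Finset.mem_insert_self _ _)) i1
      (ht a (Finset.mem_insert_self _ _)) i2
    refine ⟨j1, j2, ?_⟩
    have e : tt (P a + ∑ i ∈ s, P i) - (tt (P a) + ∑ i ∈ s, tt (P i)) =
        (tt (P a + ∑ i ∈ s, P i) - tt (P a) - tt (∑ i ∈ s, P i)) +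
          (tt (∑ i ∈ s, P i) - ∑ i ∈ s, tt (P i)) := by ring
    rw [e]
    exact (na _ _).trans (max_le j3 i3)

end pts

section fix

variable {Ω : Type} [NormedField Ω] {V : WeierstrassCurve Ω} {G : Subgroup (RingAut Ω)}

lemma fix_T (hV : FixW V G) (N : Subgroup G) (hN : N.Normal) (τ : G) {P : Pt V}
    (hP : P ∈ Fix hV N) : T hV τ P ∈ Fix hV N := by
  rw [mem_Fix] at hP ⊢
  intro σ hσ
  have h1 : τ⁻¹ * σ * τ ∈ N := by
    have := hN.conj_mem σ hσ τ⁻¹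
    rwa [inv_inv] at this
  rw [← T_mul]
  have h2 : σ * τ = τ * (τ⁻¹ * σ * τ) := by group
  rw [h2, T_mul, hP _ h1]

lemma fix_el {G : Subgroup (RingAut Ω)} (N : Subgroup G) (hN : N.Normal) (τ : G) {x : Ω}
    (hx : ∀ σ ∈ N, (σ : RingAut Ω) x = x) : ∀ σ ∈ N, (σ : RingAut Ω) ((τ : RingAut Ω) x) = (τ : RingAut Ω) x := by
  intro σ hσ
  have h1 : τ⁻¹ * σ * τ ∈ N := by
    have := hN.conj_mem σ hσ τ⁻¹
    rwa [inv_inv] at this
  have h2 : σ * τ = τ * (τ⁻¹ * σ * τ) := by group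
  have h3 : ((σ * τ : G) : RingAut Ω) x = ((τ * (τ⁻¹ * σ * τ) : G) : RingAut Ω) x := by rw [h2]
  have h4 : ((τ * (τ⁻¹ * σ * τ) : G) : RingAut Ω) x =
      (τ : RingAut Ω) (((τ⁻¹ * σ * τ : G) : RingAut Ω) x) := rfl
  have h5 : ((σ * τ : G) : RingAut Ω) x = (σ : RingAut Ω) ((τ : RingAut Ω) x) := rfl
  rw [← h5, h3, h4, hx _ h1]

lemma tt_fix (hV : FixW V G) (N : Subgroup G) {P : Pt V} (hP : P ∈ Fix hV N) :
    ∀ σ ∈ N, (σ : RingAut Ω) (tt P) = tt P := by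
  intro σ hσ
  rw [← tt_T hV, (mem_Fix hV N P).1 hP σ hσ]

end fix

section cong

variable {Ω : Type} [NormedField Ω]

/-- congruence modulo the maximal ideal -/
def Cg (x y : Ω) : Prop := ‖x - y‖ < 1

lemma cg_refl (x : Ω) : Cg x x := by simp [Cg]

lemma cg_symm {x y : Ω} (h : Cg x y) : Cg y x := by
  unfold Cg at *
  rwa [norm_sub_rev]

lemma cg_trans (na : ∀ x y : Ω, ‖x + y‖ ≤ max ‖x‖ ‖y‖) {x y z : Ω} (h1 : Cg x y) (h2 : Cg y z) :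
    Cg x z := by
  unfold Cg at *
  have e : x - z = (x - y) + (y - z) := by ring
  rw [e]
  exact (na _ _).trans_lt (max_lt h1 h2)

lemma cg_add (na : ∀ x y : Ω, ‖x + y‖ ≤ max ‖x‖ ‖y‖) {x y z w : Ω} (h1 : Cg x y) (h2 : Cg z w) :
    Cg (x + z) (y + w) := by
  unfold Cg at *
  have e : x + z - (y + w) = (x - y) + (z - w) := by ring
  rw [e]
  exact (na _ _).trans_lt (max_lt h1 h2)

lemma cg_sub (na : ∀ x y : Ω, ‖x + y‖ ≤ max ‖x‖ ‖y‖) {x y z w : Ω} (h1 : Cg x y) (h2 : Cg z w) :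
    Cg (x - z) (y - w) := by
  unfold Cg at *
  have e : x - z - (y - w) = (x - y) + (w - z) := by ring
  rw [e]
  refine (na _ _).trans_lt (max_lt h1 ?_)
  rwa [norm_sub_rev]

lemma cg_sum (na : ∀ x y : Ω, ‖x + y‖ ≤ max ‖x‖ ‖y‖) {ι : Type} (s : Finset ι) (f g : ι → Ω)
    (h : ∀ i ∈ s, Cg (f i) (g i)) : Cg (∑ i ∈ s, f i) (∑ i ∈ s, g i) := by
  classical
  induction s using Finset.induction_on with
  | empty =>
    rw [Finset.sum_empty, Finset.sum_empty]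
    exact cg_refl 0
  | insert a s ha ih =>
    rw [Finset.sum_insert ha, Finset.sum_insert ha]
    exact cg_add na (h a (Finset.mem_insert_self _ _))
      (ih (fun i hi => h i (Finset.mem_insert_of_mem hi)))

lemma norm_le_of_cg (na : ∀ x y : Ω, ‖x + y‖ ≤ max ‖x‖ ‖y‖) {x y : Ω} (h : Cg x y) (hy : ‖y‖ ≤ 1) :
    ‖x‖ ≤ 1 := by
  have e : x = (x - y) + y := by ring
  rw [e]
  exact (na _ _).trans (max_le (le_of_lt h) hy)

lemma pow_le_one' {x : Ω} (hx : ‖x‖ ≤ 1) (k : ℕ) : ‖x ^ k‖ ≤ 1 := by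
  rw [norm_pow]
  exact pow_le_one₀ (norm_nonneg _) hx

lemma cg_mul (na : ∀ x y : Ω, ‖x + y‖ ≤ max ‖x‖ ‖y‖) {x y z w : Ω} (h1 : Cg x y) (h2 : Cg z w)
    (hx : ‖x‖ ≤ 1) (hw : ‖w‖ ≤ 1) : Cg (x * z) (y * w) := by
  unfold Cg at *
  have e : x * z - y * w = x * (z - w) + (x - y) * w := by ring
  rw [e]
  refine (na _ _).trans_lt (max_lt ?_ ?_)
  · rw [norm_mul]
    calc ‖x‖ * ‖z - w‖ ≤ 1 * ‖z - w‖ := mul_le_mul_of_nonneg_right hx (norm_nonneg _)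
      _ < 1 := by rw [one_mul]; exact h2
  · rw [norm_mul]
    calc ‖x - y‖ * ‖w‖ ≤ ‖x - y‖ * 1 := mul_le_mul_of_nonneg_left hw (norm_nonneg _)
      _ < 1 := by rw [mul_one]; exact h1

lemma cg_pow (na : ∀ x y : Ω, ‖x + y‖ ≤ max ‖x‖ ‖y‖) {x y : Ω} (h : Cg x y) (hy : ‖y‖ ≤ 1)
    (k : ℕ) : Cg (x ^ k) (y ^ k) := by
  induction k with
  | zero =>
    rw [pow_zero, pow_zero]
    exact cg_refl 1
  | succ k ih =>
    rw [pow_succ, pow_succ]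
    exact cg_mul na ih h (pow_le_one' (norm_le_of_cg na h hy) k) hy

/-- the integral elements -/
def intR (na : ∀ x y : Ω, ‖x + y‖ ≤ max ‖x‖ ‖y‖) : Subring Ω where
  carrier := {x | ‖x‖ ≤ 1}
  zero_mem' := by simp
  one_mem' := by simp
  add_mem' := fun {x y} hx hy => (na x y).trans (max_le hx hy)
  mul_mem' := fun {x y} hx hy => by
    change ‖x * y‖ ≤ 1
    rw [norm_mul]
    exact mul_le_one₀ hx (norm_nonneg _) hy
  neg_mem' := fun {x} hx => by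
    change ‖-x‖ ≤ 1
    rw [norm_neg]
    exact hx

/-- the power `Q` is additive modulo the maximal ideal -/
lemma add_pow_cg (na : ∀ x y : Ω, ‖x + y‖ ≤ max ‖x‖ ‖y‖) {l f Q : ℕ} (hl : l.Prime)
    (hQ : Q = l ^ f) (hl1 : ‖(l : Ω)‖ < 1) {x y : Ω} (hx : ‖x‖ ≤ 1) (hy : ‖y‖ ≤ 1) :
    Cg ((x + y) ^ Q) (x ^ Q + y ^ Q) := by
  subst hQ
  obtain ⟨r, hr⟩ := exists_add_pow_prime_pow_eq hl (⟨x, hx⟩ : intR na) (⟨y, hy⟩ : intR na) f
  have hr' := congrArg (fun z : intR na => (z : Ω)) hr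
  simp only [Subring.coe_add, Subring.coe_mul, Subring.coe_pow, Subring.coe_natCast] at hr'
  unfold Cg
  rw [hr']
  have e : x ^ l ^ f + y ^ l ^ f + (l : Ω) * x * y * (r : Ω) - (x ^ l ^ f + y ^ l ^ f) =
      (l : Ω) * (x * y * (r : Ω)) := by ring
  have hrr : ‖(r : Ω)‖ ≤ 1 := r.2
  have h3 : ‖x * y * (r : Ω)‖ ≤ 1 := by
    rw [norm_mul, norm_mul]
    exact mul_le_one₀ (mul_le_one₀ hx (norm_nonneg _) hy) (norm_nonneg _) hrr
  have e2 : x ^ l ^ f + y ^ l ^ f + (l : Ω) * x * y * (r : Ω) - (x ^ l ^ f + y ^ l ^ f) =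
      (l : Ω) * (x * y * (r : Ω)) := by ring
  rw [e2, norm_mul]
  calc ‖(l : Ω)‖ * ‖x * y * (r : Ω)‖ ≤ ‖(l : Ω)‖ * 1 :=
        mul_le_mul_of_nonneg_left h3 (norm_nonneg _)
    _ < 1 := by rw [mul_one]; exact hl1

lemma sum_pow_cg (na : ∀ x y : Ω, ‖x + y‖ ≤ max ‖x‖ ‖y‖) {l f Q : ℕ} (hl : l.Prime)
    (hQ : Q = l ^ f) (hl1 : ‖(l : Ω)‖ < 1) {ι : Type} (s : Finset ι) (g : ι → Ω)
    (hg : ∀ i ∈ s, ‖g i‖ ≤ 1) : Cg ((∑ i ∈ s, g i) ^ Q) (∑ i ∈ s, g i ^ Q) ∧ ‖∑ i ∈ s, g i‖ ≤ 1 := by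
  classical
  have hQ0 : Q ≠ 0 := by
    rw [hQ]
    exact pow_ne_zero _ hl.ne_zero
  induction s using Finset.induction_on with
  | empty =>
    rw [Finset.sum_empty, Finset.sum_empty, zero_pow hQ0]
    refine ⟨cg_refl 0, ?_⟩
    rw [norm_zero]
    exact zero_le_one
  | insert a s ha ih =>
    rw [Finset.sum_insert ha, Finset.sum_insert ha]
    obtain ⟨i1, i2⟩ := ih (fun i hi => hg i (Finset.mem_insert_of_mem hi))
    have h1 := hg a (Finset.mem_insert_self _ _)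
    refine ⟨cg_trans na (add_pow_cg na hl hQ hl1 h1 i2) (cg_add na (cg_refl _) i1), ?_⟩
    exact (na _ _).trans (max_le h1 i2)

end cong

end Pool.Agent.P8H89.UL
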