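import Pool.Agent.P8H89.UL.Base

/-! Project UL of helper17, package DE (helper89): points near zero, and the first cohomology group of
the kernel of the reduction. -/

set_option autoImplicit false
set_option linter.unusedVariables false

open WeierstrassCurve

namespace Pool.Agent.P8H89.UL

open Pool.Agent.P8H17.UL

section norm

variable {Ω : Type} [NormedField Ω] {V : WeierstrassCurve Ω} {G : Subgroup (RingAut Ω)}
  {N : Subgroup G} {φ : G}

lemma T_comm_sum (hV : FixW V G) (σ : G) (M : ℕ) (P : ℕ → Pt V) :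
    T hV σ (∑ i ∈ Finset.range M, P i) = ∑ i ∈ Finset.range M, T hV σ (P i) := map_sum _ _ _

lemma T_pow_succ (hV : FixW V G) (φ : G) (i : ℕ) (P : Pt V) :
    T hV φ (T hV (φ ^ i) P) = T hV (φ ^ (i + 1)) P := by
  rw [← T_mul, ← pow_succ']

/-- a telescoping sum -/
lemma norm_bound (hV : FixW V G) (φ : G) (M : ℕ) (P : Pt V) :
    ∑ i ∈ Finset.range M, T hV (φ ^ i) (T hV φ P - P) = T hV (φ ^ M) P - P := by
  induction M with
  | zero =>
    rw [Finset.sum_range_zero, pow_zero, T_one, sub_self]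
  | succ M ih =>
    rw [Finset.sum_range_succ, ih, map_sub, ← T_mul, ← pow_succ]
    abel

/-- the element with given coboundary -/
lemma cob (hV : FixW V G) (φ : G) (M : ℕ) (P : Pt V) :
    T hV φ (-(∑ i ∈ Finset.range M, ∑ l ∈ Finset.range i, T hV (φ ^ l) P)) -
      (-(∑ i ∈ Finset.range M, ∑ l ∈ Finset.range i, T hV (φ ^ l) P)) =
      M • P - ∑ i ∈ Finset.range M, T hV (φ ^ i) P := by
  have h1 : ∀ i : ℕ, T hV φ (∑ l ∈ Finset.range i, T hV (φ ^ l) P) -
      ∑ l ∈ Finset.range i, T hV (φ ^ l) P = T hV (φ ^ i) P - P := by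
    intro i
    induction i with
    | zero => rw [Finset.sum_range_zero, map_zero, sub_zero, pow_zero, T_one, sub_self]
    | succ i ih =>
      rw [Finset.sum_range_succ, map_add, T_pow_succ]
      have : T hV φ (∑ l ∈ Finset.range i, T hV (φ ^ l) P) + T hV (φ ^ (i + 1)) P -
          (∑ l ∈ Finset.range i, T hV (φ ^ l) P + T hV (φ ^ i) P) =
          (T hV φ (∑ l ∈ Finset.range i, T hV (φ ^ l) P) -
            ∑ l ∈ Finset.range i, T hV (φ ^ l) P) + (T hV (φ ^ (i + 1)) P - T hV (φ ^ i) P) := by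
        abel
      rw [this, ih]
      abel
  have h2 : T hV φ (∑ i ∈ Finset.range M, ∑ l ∈ Finset.range i, T hV (φ ^ l) P) -
      (∑ i ∈ Finset.range M, ∑ l ∈ Finset.range i, T hV (φ ^ l) P) =
      ∑ i ∈ Finset.range M, (T hV (φ ^ i) P - P) := by
    rw [map_sum, ← Finset.sum_sub_distrib]
    exact Finset.sum_congr rfl fun i _ => h1 i
  rw [map_neg]
  have h3 : -(T hV φ (∑ i ∈ Finset.range M, ∑ l ∈ Finset.range i, T hV (φ ^ l) P)) -
      (-(∑ i ∈ Finset.range M, ∑ l ∈ Finset.range i, T hV (φ ^ l) P)) =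
      -(T hV φ (∑ i ∈ Finset.range M, ∑ l ∈ Finset.range i, T hV (φ ^ l) P) -
      (∑ i ∈ Finset.range M, ∑ l ∈ Finset.range i, T hV (φ ^ l) P)) := by abel
  rw [h3, h2, Finset.sum_sub_distrib, Finset.sum_const, Finset.card_range]
  abel

end norm

theorem de (hFA : S_FA) (hDV : S_DV) : S_DE := by
  intro Ω _ _ _ G N φ p m Q hS V hV1 hV
  have na := hS.na
  have hF : FAV V := hFA Ω na V hV1
  have hM1 : 1 ≤ p ^ m := Nat.one_le_pow _ _ hS.hp.pos
  obtain ⟨hfin, hdiv⟩ := hDV Ω na V hV1.hΔ (p ^ m) hM1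
  -- a bound for the torsion
  obtain ⟨B, hB1, hB⟩ : ∃ B : ℝ, 1 ≤ B ∧ ∀ P : Pt V, p ^ m • P = 0 → Big B P → P = 0 := by
    classical
    let xc : Pt V → ℝ := fun P => match P with
      | Affine.Point.zero => 0
      | Affine.Point.some x _ _ => ‖x‖
    have hxc : ∀ (x y : Ω) (h : V.toAffine.Nonsingular x y), xc (pt h) = ‖x‖ := fun _ _ _ => rfl
    obtain ⟨C, hC⟩ := (hfin.image xc).bddAbove
    refine ⟨max 1 C, le_max_left _ _, ?_⟩
    intro P hP hb
    rcases pt_cases P with rfl | ⟨x, y, h, rfl⟩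
    · rfl
    · exfalso
      have h1 := big_pt.1 hb
      have h2 : xc (pt h) ≤ C := hC ⟨_, hP, rfl⟩
      rw [hxc] at h2
      have h3 := le_max_right 1 C
      linarith
  obtain ⟨C, hC⟩ := hdiv B
  refine ⟨C, ?_⟩
  intro b hb hbC hnorm
  obtain ⟨b', hbb, hb'⟩ := hC b hbC
  have hsubB : ∀ P R : Pt V, Big B P → Big B R → Big B (P - R) := by
    intro P R hP hR
    rw [sub_eq_add_neg]
    exact bigB_add hF na hB1 hP (big_neg hR)
  have hb'N : b' ∈ Fix hV N := by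
    rw [mem_Fix]
    intro σ hσ
    have h1 : p ^ m • (T hV σ b' - b') = 0 := by
      rw [smul_sub, ← map_nsmul, hbb, (mem_Fix hV N b).1 hb σ hσ, sub_self]
    have h2 := hB _ h1 (hsubB _ _ (big_T hV _ (hS.iso _) hb') hb')
    exact sub_eq_zero.1 h2
  have hbn : ∑ i ∈ Finset.range (p ^ m), T hV (φ ^ i) b' = 0 := by
    refine hB _ ?_ (bigB_sum hF na hB1 _ _ fun i _ => big_T hV _ (hS.iso _) hb')
    rw [Finset.smul_sum]
    have : ∀ i ∈ Finset.range (p ^ m), p ^ m • T hV (φ ^ i) b' = T hV (φ ^ i) b := by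
      intro i _
      rw [← map_nsmul, hbb]
    rw [Finset.sum_congr rfl this, hnorm]
  refine ⟨-(∑ i ∈ Finset.range (p ^ m), ∑ l ∈ Finset.range i, T hV (φ ^ l) b'), ?_, ?_, ?_⟩
  · refine AddSubgroup.neg_mem _ (AddSubgroup.sum_mem _ fun i _ => AddSubgroup.sum_mem _ fun l _ => ?_)
    exact fix_T hV N hS.nor _ hb'N
  · refine big_neg (bigB_sum hF na le_rfl _ _ fun i _ => bigB_sum hF na le_rfl _ _ fun l _ => ?_)
    exact big_T hV _ (hS.iso _) (big_mono hB1 hb')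
  · rw [cob, hbn, sub_zero, hbb]

theorem eh (hFA : S_FA) (hST : S_ST) (hDE : S_DE) : S_EH := by
  intro Ω _ _ _ G N φ p m Q hS V hV1 hV b hb hbB hnorm
  have na := hS.na
  have hF : FAV V := hFA Ω na V hV1
  obtain ⟨π, hπ0, hπ1, hπG, hun⟩ := hS.unif
  obtain ⟨C, hC⟩ := hDE Ω G N φ p m Q hS V hV1 hV
  have hbt : ‖tt b‖ ≤ ‖π‖ := hun _ (tt_fix hV N hb) (tt_lt hF hbB)
  have hTR : ∀ R ∈ Fix hV N, T hV φ R - R ∈ Fix hV N :=
    fun R hR => AddSubgroup.sub_mem _ (fix_T hV N hS.nor _ hR) hR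
  have hBR : ∀ R : Pt V, Big 1 R → Big 1 (T hV φ R - R) := by
    intro R hR
    rw [sub_eq_add_neg]
    exact bigB_add hF na le_rfl (big_T hV _ (hS.iso _) hR) (big_neg hR)
  have hnR : ∀ R ∈ Fix hV N, ∑ i ∈ Finset.range (p ^ m), T hV (φ ^ i) (T hV φ R - R) = 0 := by
    intro R hR
    rw [norm_bound, (mem_Fix hV N R).1 hR _ hS.phiM, sub_self]
  have hnb : ∀ R ∈ Fix hV N, ∑ i ∈ Finset.range (p ^ m), T hV (φ ^ i) (b - (T hV φ R - R)) = 0 := by
    intro R hR
    have : ∀ i ∈ Finset.range (p ^ m), T hV (φ ^ i) (b - (T hV φ R - R)) =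
        T hV (φ ^ i) b - T hV (φ ^ i) (T hV φ R - R) := fun i _ => map_sub _ _ _
    rw [Finset.sum_congr rfl this, Finset.sum_sub_distrib, hnorm, hnR R hR, sub_zero]
  have hbb : ∀ R : Pt V, Big 1 R → Big 1 (b - (T hV φ R - R)) := by
    intro R hR
    rw [sub_eq_add_neg]
    exact bigB_add hF na le_rfl hbB (big_neg (hBR R hR))
  have key : ∀ k : ℕ, ∃ R ∈ Fix hV N, Big 1 R ∧ ‖tt (b - (T hV φ R - R))‖ ≤ ‖π‖ ^ (k + 1) := by
    intro k
    induction k with
    | zero =>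
      refine ⟨0, AddSubgroup.zero_mem _, big_zero 1, ?_⟩
      rw [map_zero, sub_self, sub_zero, zero_add, pow_one]
      exact hbt
    | succ k ih =>
      obtain ⟨R, hR, hRB, hRt⟩ := ih
      obtain ⟨R', hR', hRB', hRt'⟩ := hST Ω G N φ p m Q hS V hV1 hV π hπ0 hπ1 hπG hun (k + 1)
        (by omega) (b - (T hV φ R - R)) (AddSubgroup.sub_mem _ hb (hTR R hR)) (hbb R hRB) hRt
        (hnb R hR)
      refine ⟨R + R', AddSubgroup.add_mem _ hR hR', bigB_add hF na le_rfl hRB hRB', ?_⟩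
      have e : b - (T hV φ (R + R') - (R + R')) =
          b - (T hV φ R - R) - (T hV φ R' - R') := by
        rw [map_add]
        abel
      rw [e]
      exact hRt'
  -- the parameter is small enough
  obtain ⟨k, hk⟩ : ∃ k : ℕ, max 1 C * (‖π‖ ^ (k + 1)) ^ 2 < 1 := by
    have hM0 : 0 < max 1 C := lt_of_lt_of_le zero_lt_one (le_max_left _ _)
    obtain ⟨k, hk⟩ := exists_pow_lt_of_lt_one (one_div_pos.2 hM0) hπ1
    refine ⟨k, ?_⟩
    have h1 : (‖π‖ ^ (k + 1)) ^ 2 ≤ ‖π‖ ^ k := by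
      rw [← pow_mul]
      exact pow_le_pow_of_le_one hπ0.le hπ1.le (by omega)
    calc max 1 C * (‖π‖ ^ (k + 1)) ^ 2 ≤ max 1 C * ‖π‖ ^ k := mul_le_mul_of_nonneg_left h1 hM0.le
      _ < max 1 C * (1 / max 1 C) := mul_lt_mul_of_pos_left hk hM0
      _ = 1 := by field_simp
  obtain ⟨R, hR, hRB, hRt⟩ := key k
  have hbig : Big C (b - (T hV φ R - R)) := by
    refine big_mono (le_max_right 1 C) ((big_iff hF (le_max_left 1 C) (hbb R hRB)).2 ?_)
    have h1 : ‖tt (b - (T hV φ R - R))‖ ^ 2 ≤ (‖π‖ ^ (k + 1)) ^ 2 :=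
      pow_le_pow_left₀ (norm_nonneg _) hRt 2
    have hM0 : 0 ≤ max 1 C := le_trans zero_le_one (le_max_left _ _)
    nlinarith [mul_le_mul_of_nonneg_left h1 hM0]
  obtain ⟨R', hR', hRB', he⟩ := hC _ (AddSubgroup.sub_mem _ hb (hTR R hR)) hbig (hnb R hR)
  refine ⟨R + R', AddSubgroup.add_mem _ hR hR', bigB_add hF na le_rfl hRB hRB', ?_⟩
  have e : T hV φ (R + R') - (R + R') = (T hV φ R - R) + (T hV φ R' - R') := by
    rw [map_add]
    abel
  rw [e, he]
  abel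

end Pool.Agent.P8H89.UL
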