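import Pool.Agent.P8H89.UL.Base

/-! Project UL of helper17, package ST (helper89): one step of the approximation in the kernel of the
reduction. -/

set_option autoImplicit false
set_option linter.unusedVariables false

open WeierstrassCurve

namespace Pool.Agent.P8H89.UL

open Pool.Agent.P8H17.UL

section frob

variable {Ω : Type} [NormedField Ω] {G : Subgroup (RingAut Ω)} {N : Subgroup G} {φ : G} {p m Q : ℕ}

lemma cg_phi (hS : Sit G N φ p m Q) (τ : G) {x y : Ω} (h : Cg x y) :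
    Cg ((τ : RingAut Ω) x) ((τ : RingAut Ω) y) := by
  unfold Cg at *
  have e : (τ : RingAut Ω) x - (τ : RingAut Ω) y = (τ : RingAut Ω) (x - y) := (map_sub _ _ _).symm
  rw [e, hS.iso]
  exact h

/-- the powers of `φ` on the residues -/
lemma phi_pow (hS : Sit G N φ p m Q) {s : Ω} (hs : ‖s‖ ≤ 1)
    (hsN : ∀ σ ∈ N, (σ : RingAut Ω) s = s) (i : ℕ) :
    Cg (((φ ^ i : G) : RingAut Ω) s) (s ^ Q ^ i) := by
  have hr := hS.resfix s hs hsN
  have hf := hS.frob s hs hr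
  induction i with
  | zero =>
    rw [pow_zero, pow_zero, pow_one]
    exact cg_refl s
  | succ i ih =>
    have e1 : ((φ ^ (i + 1) : G) : RingAut Ω) s = (φ : RingAut Ω) (((φ ^ i : G) : RingAut Ω) s) := by
      rw [pow_succ']
      rfl
    rw [e1]
    have h1 := cg_phi hS φ ih
    have e2 : (φ : RingAut Ω) (s ^ Q ^ i) = ((φ : RingAut Ω) s) ^ Q ^ i := map_pow _ _ _
    rw [e2] at h1
    refine cg_trans hS.na h1 ?_
    have h2 : Cg ((φ : RingAut Ω) s) (s ^ Q) := hf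
    have h3 := cg_pow hS.na h2 (pow_le_one' hs Q) (Q ^ i)
    rw [← pow_mul] at h3
    have e3 : Q * Q ^ i = Q ^ (i + 1) := by rw [pow_succ]; ring
    rwa [e3] at h3

/-- the iterated Artin-Schreier equation -/
lemma as_pow (hS : Sit G N φ p m Q) {s z : Ω} (hs : ‖s‖ ≤ 1) (hz : ‖z‖ ≤ 1) (hzs : z ^ Q - z = s)
    (i : ℕ) : Cg (z ^ Q ^ i) (z + ∑ j ∈ Finset.range i, s ^ Q ^ j) := by
  obtain ⟨l, f, hl, hQ, hl1⟩ := hS.resc
  have hsj : ∀ j : ℕ, ‖s ^ Q ^ j‖ ≤ 1 := fun j => pow_le_one' hs _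
  induction i with
  | zero =>
    rw [pow_zero, pow_one, Finset.sum_range_zero, add_zero]
    exact cg_refl z
  | succ i ih =>
    obtain ⟨h1, h2⟩ := sum_pow_cg hS.na hl hQ hl1 (Finset.range i) (fun j => s ^ Q ^ j)
      (fun j _ => hsj j)
    have h3 : ‖z + ∑ j ∈ Finset.range i, s ^ Q ^ j‖ ≤ 1 := (hS.na _ _).trans (max_le hz h2)
    have h4 := cg_pow hS.na ih h3 Q
    rw [← pow_mul, ← pow_succ] at h4
    refine cg_trans hS.na h4 ?_
    refine cg_trans hS.na (add_pow_cg hS.na hl hQ hl1 hz h2) ?_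
    have h5 := cg_add hS.na (cg_refl (z ^ Q)) h1
    refine cg_trans hS.na h5 ?_
    have e : z ^ Q + ∑ j ∈ Finset.range i, (s ^ Q ^ j) ^ Q =
        z + ∑ j ∈ Finset.range (i + 1), s ^ Q ^ j := by
      rw [Finset.sum_range_succ']
      have e1 : z ^ Q = z + s := by rw [← hzs]; ring
      rw [e1, pow_zero, pow_one]
      have e2 : ∑ j ∈ Finset.range i, (s ^ Q ^ j) ^ Q = ∑ j ∈ Finset.range i, s ^ Q ^ (j + 1) := by
        refine Finset.sum_congr rfl fun j _ => ?_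
        rw [← pow_mul, ← pow_succ]
      rw [e2]
      ring
    rw [e]
    exact cg_refl _

/-- the Artin-Schreier equation has integral solutions -/
lemma as_solve [IsAlgClosed Ω] {Q : ℕ} (hQ : 1 < Q) {s : Ω}
    (na : ∀ x y : Ω, ‖x + y‖ ≤ max ‖x‖ ‖y‖) (hs : ‖s‖ ≤ 1) : ∃ z : Ω, z ^ Q - z = s ∧ ‖z‖ ≤ 1 := by
  classical
  let P : Polynomial Ω := Polynomial.X ^ Q - Polynomial.X - Polynomial.C s
  have hd : P.degree = Q := by
    have h1 : (Polynomial.X + Polynomial.C s : Polynomial Ω).degree < (Q : WithBot ℕ) := by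
      refine (Polynomial.degree_add_le _ _).trans_lt (max_lt ?_ ?_)
      · rw [Polynomial.degree_X]
        exact_mod_cast hQ
      · refine Polynomial.degree_C_le.trans_lt ?_
        exact_mod_cast (by omega : 0 < Q)
    have h2 : P = Polynomial.X ^ Q - (Polynomial.X + Polynomial.C s) := by
      simp only [P]
      ring
    rw [h2, Polynomial.degree_sub_eq_left_of_degree_lt, Polynomial.degree_X_pow]
    rw [Polynomial.degree_X_pow]
    exact h1
  have hd0 : P.degree ≠ 0 := by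
    rw [hd]
    exact_mod_cast (by omega : Q ≠ 0)
  obtain ⟨z, hz⟩ := IsAlgClosed.exists_root P hd0
  have hz' : z ^ Q - z - s = 0 := by
    have : P.eval z = 0 := hz
    simpa [P] using this
  have hz2 : z ^ Q - z = s := by linear_combination hz'
  refine ⟨z, hz2, ?_⟩
  by_contra hc
  rw [not_le] at hc
  have h1 : ‖z ^ Q‖ ≤ max ‖s‖ ‖z‖ := by
    have e : z ^ Q = s + z := by linear_combination hz'
    rw [e]
    exact na _ _
  have h2 : max ‖s‖ ‖z‖ ≤ ‖z‖ := max_le (hs.trans hc.le) le_rfl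
  have h3 : ‖z‖ < ‖z ^ Q‖ := by
    rw [norm_pow]
    calc ‖z‖ = ‖z‖ ^ 1 := (pow_one _).symm
      _ < ‖z‖ ^ Q := pow_lt_pow_right₀ hc hQ
  linarith

end frob

theorem st (hFA : S_FA) (hFB : S_FB) (hTE : S_TE) : S_ST := by
  intro Ω _ _ _ G N φ p m Q hS V hV1 hV π hπ0 hπ1 hπG hun n hn b hb hbB hbn hnorm
  have na := hS.na
  have hF : FAV V := hFA Ω na V hV1
  obtain ⟨hB1, hB2⟩ := hFB Ω na V hV1
  have hπ : π ≠ 0 := norm_pos_iff.1 hπ0
  have hπn : π ^ n ≠ 0 := pow_ne_zero _ hπ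
  have hπn0 : 0 < ‖π‖ ^ n := pow_pos hπ0 n
  have hπn1 : ‖π‖ ^ n < 1 := pow_lt_one₀ hπ0.le hπ1 (by omega)
  -- the element s
  set s : Ω := tt b / π ^ n with hsdef
  have hts : tt b = π ^ n * s := by
    rw [hsdef]
    field_simp
  have hs1 : ‖s‖ ≤ 1 := by
    rw [hsdef, norm_div, norm_pow]
    exact div_le_one_of_le₀ hbn hπn0.le
  have hπτ : ∀ τ : G, (τ : RingAut Ω) (π ^ n) = π ^ n := by
    intro τ
    have : (τ : RingAut Ω) (π ^ n) = ((τ : RingAut Ω) π) ^ n := map_pow _ _ _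
    rw [this, hπG]
  have hsN : ∀ σ ∈ N, (σ : RingAut Ω) s = s := by
    intro σ hσ
    have h1 := tt_fix hV N hb σ hσ
    have h2 : (σ : RingAut Ω) s = (σ : RingAut Ω) (tt b) / (σ : RingAut Ω) (π ^ n) := by
      rw [hsdef]
      exact map_div₀ _ _ _
    rw [h2, h1, hπτ]
  -- the sum of the conjugates of s
  have hsum : ‖∑ i ∈ Finset.range (p ^ m), ((φ ^ i : G) : RingAut Ω) s‖ < 1 := by
    obtain ⟨-, -, h3⟩ := tt_sum hF na (r := ‖π‖ ^ n) hπn0.le (Finset.range (p ^ m))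
      (fun i => T hV (φ ^ i) b) (fun i _ => big_T hV _ (hS.iso _) hbB)
      (fun i _ => by
        rw [tt_T, hS.iso]
        exact hbn)
    rw [hnorm, tt_zero, zero_sub, norm_neg] at h3
    have e : ∑ i ∈ Finset.range (p ^ m), tt (T hV (φ ^ i) b) =
        π ^ n * ∑ i ∈ Finset.range (p ^ m), ((φ ^ i : G) : RingAut Ω) s := by
      rw [Finset.mul_sum]
      refine Finset.sum_congr rfl fun i _ => ?_
      rw [tt_T, hts]
      have : ((φ ^ i : G) : RingAut Ω) (π ^ n * s) =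
          ((φ ^ i : G) : RingAut Ω) (π ^ n) * ((φ ^ i : G) : RingAut Ω) s := map_mul _ _ _
      rw [this, hπτ]
    rw [e, norm_mul, norm_pow, pow_two] at h3
    have h4 := le_of_mul_le_mul_left h3 hπn0
    exact h4.trans_lt hπn1
  have hsum2 : Cg (∑ i ∈ Finset.range (p ^ m), s ^ Q ^ i) 0 := by
    have h1 := cg_sum na (Finset.range (p ^ m)) (fun i => ((φ ^ i : G) : RingAut Ω) s)
      (fun i => s ^ Q ^ i) (fun i _ => phi_pow hS hs1 hsN i)
    refine cg_trans na (cg_symm h1) ?_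
    unfold Cg
    rw [sub_zero]
    exact hsum
  -- the element z
  obtain ⟨z, hzs, hz1⟩ := as_solve (Ω := Ω) hS.Q2 na hs1
  have hzM : Cg (z ^ Q ^ p ^ m) z := by
    refine cg_trans na (as_pow hS hs1 hz1 hzs (p ^ m)) ?_
    have := cg_add na (cg_refl z) hsum2
    rwa [add_zero] at this
  obtain ⟨z', hz'N, hz'z⟩ := hTE Ω G N φ p m Q hS z hz1 hzM
  have hz'1 : ‖z'‖ ≤ 1 := norm_le_of_cg na hz'z hz1
  have hfz : Cg ((φ : RingAut Ω) z') (z' ^ Q) := hS.frob z' hz'1 (hS.resfix z' hz'1 hz'N)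
  -- the point R
  have htR : ‖π ^ n * z'‖ < 1 := by
    rw [norm_mul, norm_pow]
    calc ‖π‖ ^ n * ‖z'‖ ≤ ‖π‖ ^ n * 1 := mul_le_mul_of_nonneg_left hz'1 hπn0.le
      _ < 1 := by rw [mul_one]; exact hπn1
  obtain ⟨R, hR1, hRt⟩ := hB1 _ htR
  have hRN : R ∈ Fix hV N := by
    rw [mem_Fix]
    intro σ hσ
    refine hB2 _ _ (big_T hV _ (hS.iso _) hR1) hR1 ?_
    rw [tt_T, hRt]
    have : (σ : RingAut Ω) (π ^ n * z') = (σ : RingAut Ω) (π ^ n) * (σ : RingAut Ω) z' :=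
      map_mul _ _ _
    rw [this, hπτ, hz'N σ hσ]
  refine ⟨R, hRN, hR1, ?_⟩
  -- the parameters
  have hRr : ‖tt R‖ ≤ ‖π‖ ^ n := by
    rw [hRt, norm_mul, norm_pow]
    calc ‖π‖ ^ n * ‖z'‖ ≤ ‖π‖ ^ n * 1 := mul_le_mul_of_nonneg_left hz'1 hπn0.le
      _ = ‖π‖ ^ n := mul_one _
  have hTR1 : Big 1 (T hV φ R) := big_T hV _ (hS.iso _) hR1
  have hTRt : tt (T hV φ R) = π ^ n * (φ : RingAut Ω) z' := by
    rw [tt_T, hRt]
    have : (φ : RingAut Ω) (π ^ n * z') = (φ : RingAut Ω) (π ^ n) * (φ : RingAut Ω) z' :=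
      map_mul _ _ _
    rw [this, hπτ]
  have hTRr : ‖tt (T hV φ R)‖ ≤ ‖π‖ ^ n := by
    rw [tt_T, hS.iso]
    exact hRr
  set r : ℝ := ‖π‖ ^ n with hr
  have hr2 : 0 ≤ r ^ 2 := by positivity
  -- - R
  have hn1 : ‖tt (-R) + tt R‖ ≤ r ^ 2 := (hF.2.1 R hR1).trans (pow_le_pow_left₀ (norm_nonneg _) hRr 2)
  obtain ⟨d1, d2, d3⟩ := big_add hF na hTR1 (big_neg hR1) hTRr ((tt_neg_le hF na hR1).trans hRr)
  rw [← sub_eq_add_neg] at d1 d2 d3
  have hn2 : ‖tt (-(T hV φ R - R)) + tt (T hV φ R - R)‖ ≤ r ^ 2 :=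
    (hF.2.1 _ d1).trans (pow_le_pow_left₀ (norm_nonneg _) d2 2)
  obtain ⟨e1, e2, e3⟩ := big_add hF na hbB (big_neg d1) hbn ((tt_neg_le hF na d1).trans d2)
  rw [← sub_eq_add_neg] at e1 e2 e3
  -- the main term
  set e : Ω := s - ((φ : RingAut Ω) z' - z') with he
  have heN : ∀ σ ∈ N, (σ : RingAut Ω) e = e := by
    intro σ hσ
    have h1 : (σ : RingAut Ω) e =
        (σ : RingAut Ω) s - ((σ : RingAut Ω) ((φ : RingAut Ω) z') - (σ : RingAut Ω) z') := by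
      rw [he, map_sub, map_sub]
    rw [h1, hsN σ hσ, hz'N σ hσ, fix_el N hS.nor φ hz'N σ hσ]
  have he1 : ‖e‖ < 1 := by
    have h1 : Cg ((φ : RingAut Ω) z' - z') (z ^ Q - z) := by
      refine cg_sub na (cg_trans na hfz ?_) hz'z
      exact cg_pow na hz'z hz1 Q
    rw [hzs] at h1
    exact cg_symm h1
  have he2 : ‖e‖ ≤ ‖π‖ := hun e heN he1
  have hfin : tt (b - (T hV φ R - R)) = π ^ n * e +
      ((tt (b - (T hV φ R - R)) - tt b - tt (-(T hV φ R - R))) +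
        ((tt (-(T hV φ R - R)) + tt (T hV φ R - R)) -
        ((tt (T hV φ R - R) - tt (T hV φ R) - tt (-R)) + (tt (-R) + tt R)))) := by
    rw [he, hTRt, hRt, hts]
    ring
  rw [hfin]
  have hr3 : r ^ 2 ≤ ‖π‖ ^ (n + 1) := by
    rw [hr, ← pow_mul]
    exact pow_le_pow_of_le_one hπ0.le hπ1.le (by omega)
  have sb : ∀ x y : Ω, ‖x - y‖ ≤ max ‖x‖ ‖y‖ := by
    intro x y
    have := na x (-y)
    rwa [norm_neg, ← sub_eq_add_neg] at this
  refine (na _ _).trans (max_le ?_ ?_)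
  · rw [norm_mul, norm_pow, pow_succ]
    exact mul_le_mul_of_nonneg_left he2 hπn0.le
  · refine le_trans ?_ hr3
    refine (na _ _).trans (max_le e3 ?_)
    refine (sb _ _).trans (max_le hn2 ?_)
    exact (na _ _).trans (max_le d3 hn1)

end Pool.Agent.P8H89.UL
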